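import Mathlib.Combinatorics.SimpleGraph.Metric
import Mathlib.Analysis.SpecialFunctions.Pow.Real

/-! The variable Wiener index and the variable Szeged index of a finite graph. -/

namespace Pool.Agent.MP_dd6dde_co

open Finset
open scoped Classical

variable {V : Type} [Fintype V] (G : SimpleGraph V)

/-- The number of vertices that are closer to `u` than to `v`. -/
noncomputable def nu (u v : V) : ℕ := (univ.filter fun w => G.dist w u < G.dist w v).card

/-- The variable Wiener index: every unordered pair of distinct vertices occurs twice in the sum
over ordered pairs. -/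
noncomputable def wiener (α : ℝ) : ℝ :=
  (∑ x, ∑ y ∈ univ.filter fun y => x ≠ y, (G.dist x y : ℝ) ^ α) / 2

/-- The variable Szeged index: every edge occurs twice in the sum over ordered adjacent pairs. -/
noncomputable def szeged (α : ℝ) : ℝ :=
  (∑ u, ∑ v ∈ univ.filter fun v => G.Adj u v, ((nu G u v * nu G v u : ℕ) : ℝ) ^ α) / 2

/-- The difference `h_G`. -/
noncomputable def hG (α : ℝ) : ℝ := szeged G α - wiener G α

end Pool.Agent.MP_dd6dde_co
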