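import Mathlib.Algebra.Polynomial.BigOperators
import Mathlib.Analysis.Calculus.LocalExtr.Rolle
import Mathlib.Analysis.Calculus.Deriv.Polynomial
import Mathlib.Analysis.SpecialFunctions.ExpDeriv
import Mathlib.Analysis.Complex.ExponentialBounds
import Pool.Agent.MP_dd6dde_co.Defs

/-! The zeros of `h_G` lie in `(0, 1]`, and there are at most `11 log n` of them. -/

namespace Pool.Agent.MP_dd6dde_co

open Finset
open scoped Classical

variable {V : Type} [Fintype V] {G : SimpleGraph V} {α : ℝ} {u v x y : V}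

variable (G) in
/-- The contribution of an ordered pair. -/
noncomputable def psi (α : ℝ) (x y : V) : ℝ :=
  (if G.Adj x y then ((nu G x y * nu G y x : ℕ) : ℝ) ^ α else 0) -
    if x ≠ y then (G.dist x y : ℝ) ^ α else 0

theorem two_h (α : ℝ) : 2 * hG G α = ∑ x, ∑ y, psi G α x y := by
  simp only [hG, szeged, wiener, psi, sum_filter, sum_sub_distrib]
  ring

theorem psi_symm (x y : V) : psi G α x y = psi G α y x := by
  simp only [psi, G.adj_comm x, mul_comm (nu G x y), G.dist_comm (u := x), ne_comm (a := x)]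

theorem nu_pos (h : G.Adj u v) : 1 ≤ nu G u v :=
  card_pos.2 ⟨u, by simp [SimpleGraph.dist_eq_one_iff_adj.2 h]⟩

theorem nu_le (u v : V) : nu G u v ≤ Fintype.card V := card_le_univ _

theorem dist_le_card (hc : G.Connected) (x y : V) : G.dist x y ≤ Fintype.card V := by
  obtain ⟨p, h1, h2⟩ := hc.exists_path_of_dist x y
  exact h2 ▸ h1.length_lt.le

theorem exists_far (ht : G ≠ ⊤) : ∃ x y, x ≠ y ∧ ¬ G.Adj x y := by
  by_contra h
  push Not at h
  exact ht (eq_top_iff.2 fun x y => h x y)

theorem sum2_lt {f g : V → V → ℝ} (h : ∀ x y, f x y ≤ g x y) {a b : V} (h' : f a b < g a b) :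
    ∑ x, ∑ y, f x y < ∑ x, ∑ y, g x y :=
  sum_lt_sum (fun x _ => sum_le_sum fun y _ => h x y)
    ⟨a, mem_univ a, sum_lt_sum (fun y _ => h a y) ⟨b, mem_univ b, h'⟩⟩

theorem psi_far (hc : G.Connected) (h1 : x ≠ y) (h2 : ¬ G.Adj x y) : psi G α x y < 0 := by
  have : (0 : ℝ) < G.dist x y := by exact_mod_cast hc.pos_dist_of_ne h1
  rw [psi, if_neg h2, if_pos h1, zero_sub, neg_lt_zero]
  positivity

theorem psi_nonpos (hc : G.Connected) (hα : α ≤ 0) (x y : V) : psi G α x y ≤ 0 := by
  by_cases h : G.Adj x y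
  · rw [psi, if_pos h, if_pos h.ne, SimpleGraph.dist_eq_one_iff_adj.2 h, Nat.cast_one, Real.one_rpow,
      sub_nonpos]
    exact Real.rpow_le_one_of_one_le_of_nonpos
      (by exact_mod_cast Nat.mul_pos (nu_pos h) (nu_pos h.symm)) hα
  · by_cases e : x = y
    · simp [psi, e]
    · exact (psi_far hc e h).le

theorem h_neg (hc : G.Connected) (ht : G ≠ ⊤) (hα : α ≤ 0) : hG G α < 0 := by
  obtain ⟨x, y, h1, h2⟩ := exists_far ht
  have := sum2_lt (g := fun _ _ => 0) (psi_nonpos hc hα) (psi_far hc h1 h2)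
  rw [← two_h] at this
  simp only [sum_const_zero] at this
  linarith

theorem h_zero (hc : G.Connected) (ht : G ≠ ⊤) : 2 * hG G 0 ≤ -1 := by
  obtain ⟨x, y, h1, h2⟩ := exists_far ht
  have e : psi G 0 x y = -1 := by simp [psi, h1, h2]
  have := single_le_sum (f := fun p : V × V => -psi G 0 p.1 p.2)
    (fun p _ => neg_nonneg.2 (psi_nonpos hc le_rfl p.1 p.2)) (mem_univ (x, y))
  rw [sum_neg_distrib, Fintype.sum_prod_type' (psi G 0), ← two_h] at this
  simp only [e] at this
  linarith

omit [Fintype V] in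
/-- A geodesic. -/
theorem geo (hc : G.Connected) (x y : V) : ∃ f : ℕ → V, f 0 = x ∧ f (G.dist x y) = y ∧
    (∀ i < G.dist x y, G.Adj (f i) (f (i + 1))) ∧
    ∀ i j, i ≤ j → j ≤ G.dist x y → G.dist (f i) (f j) = j - i := by
  obtain ⟨p, hp⟩ := hc.exists_walk_length_eq_dist x y
  have ha : ∀ i < G.dist x y, G.Adj (p.getVert i) (p.getVert (i + 1)) := fun i hi =>
    p.adj_getVert_succ (hp ▸ hi)
  have h1 : ∀ i j, i ≤ j → j ≤ G.dist x y → G.dist (p.getVert i) (p.getVert j) ≤ j - i := by
    intro i j hij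
    induction j, hij using Nat.le_induction with
    | base => simp
    | succ j hij ih =>
      intro hj
      have := hc.dist_triangle (u := p.getVert i) (v := p.getVert j) (w := p.getVert (j + 1))
      rw [SimpleGraph.dist_eq_one_iff_adj.2 (ha j hj)] at this
      have := ih (by omega)
      omega
  have h2 : p.getVert (G.dist x y) = y := hp ▸ p.getVert_length
  refine ⟨p.getVert, p.getVert_zero, h2, ha, fun i j hij hj => (h1 i j hij hj).antisymm ?_⟩
  have a1 := h1 0 i (by omega) (by omega)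
  have a2 := h1 j _ hj le_rfl
  have a3 := hc.dist_triangle (u := x) (v := p.getVert i) (w := y)
  have a4 := hc.dist_triangle (u := p.getVert i) (v := p.getVert j) (w := y)
  rw [p.getVert_zero] at a1
  rw [h2] at a2
  omega

/-- The edges of a geodesic separate its ends and have large products. -/
theorem sep (hc : G.Connected) (x y : V) : G.dist x y ≤ (univ.filter fun e : V × V =>
    (G.Adj e.1 e.2 ∧ G.dist x e.1 < G.dist x e.2 ∧ G.dist y e.2 < G.dist y e.1) ∧
      G.dist x y ≤ nu G e.1 e.2 * nu G e.2 e.1).card := by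
  obtain ⟨f, h0, hd, ha, hf⟩ := geo hc x y
  have inj : ∀ i ≤ G.dist x y, ∀ j ≤ G.dist x y, f i = f j → i = j := fun i hi j hj e => by
    have a := hf 0 i (by omega) hi
    rw [e, hf 0 j (by omega) hj] at a
    omega
  refine (card_range _).symm.trans_le (card_le_card_of_injOn (fun i => (f i, f (i + 1)))
    (fun i hi => ?_) fun i hi j hj e => inj i (mem_range.1 hi).le j (mem_range.1 hj).le
      (congrArg Prod.fst e))
  have hi := mem_range.1 hi
  have a1 : i + 1 ≤ nu G (f i) (f (i + 1)) :=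
    (card_range _).symm.trans_le (card_le_card_of_injOn f (fun j hj => by
      have := mem_range.1 hj
      simp only [coe_filter, mem_univ, true_and, Set.mem_ofPred_eq]
      rw [hf j i (by omega) (by omega), hf j (i + 1) (by omega) (by omega)]
      omega) fun j hj l hl => inj j (by have := mem_range.1 hj; omega) l
        (by have := mem_range.1 hl; omega))
  have a2 : G.dist x y - i ≤ nu G (f (i + 1)) (f i) := by
    refine le_trans (by simp) (card_le_card_of_injOn (s := Icc (i + 1) (G.dist x y)) f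
      (fun j hj => ?_) fun j hj l hl => inj j (mem_Icc.1 hj).2 l (mem_Icc.1 hl).2)
    have := mem_Icc.1 hj
    simp only [coe_filter, mem_univ, true_and, Set.mem_ofPred_eq]
    rw [G.dist_comm, hf _ j this.1 this.2, G.dist_comm, hf i j (by omega) this.2]
    omega
  simp only [coe_filter, mem_univ, true_and, Set.mem_ofPred_eq]
  refine ⟨⟨ha i hi, ?_, ?_⟩, le_trans ?_ (Nat.mul_le_mul a1 a2)⟩
  · have b1 := hf 0 i (by omega) (by omega)
    have b2 := hf 0 (i + 1) (by omega) (by omega)
    rw [h0] at b1 b2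
    omega
  · have b1 := hf i _ hi.le le_rfl
    have b2 := hf (i + 1) _ hi le_rfl
    rw [hd, G.dist_comm] at b1 b2
    omega
  · obtain ⟨m, hm⟩ := Nat.exists_eq_add_of_lt hi
    rw [hm, show i + m + 1 - i = m + 1 by omega]
    nlinarith

theorem h_pos (hc : G.Connected) (ht : G ≠ ⊤) (hα : 1 < α) : 0 < hG G α := by
  let a : V × V → ℝ := fun e => ((nu G e.1 e.2 * nu G e.2 e.1 : ℕ) : ℝ)
  let T : V → V → ℝ := fun x y => ∑ e ∈ univ.filter fun e : V × V =>
    G.Adj e.1 e.2 ∧ G.dist x e.1 < G.dist x e.2 ∧ G.dist y e.2 < G.dist y e.1, a e ^ (α - 1)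
  have a0 : ∀ e, 0 ≤ a e ^ (α - 1) := fun e => Real.rpow_nonneg (Nat.cast_nonneg _) _
  have e1 : ∑ x, ∑ y, T x y = ∑ u, ∑ v, if G.Adj u v then a (u, v) ^ α else 0 := by
    simp only [T, sum_filter]
    rw [← Fintype.sum_prod_type' fun u v => if G.Adj u v then a (u, v) ^ α else 0,
      sum_congr rfl fun x _ => sum_comm, sum_comm]
    refine sum_congr rfl fun e _ => ?_
    split_ifs with h
    · have : a e ^ α = a e * a e ^ (α - 1) := by
        rw [← Real.rpow_one_add' (Nat.cast_nonneg _) (by linarith)]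
        simp [a]
      rw [this]
      simp only [h, true_and, ite_and, a, nu, card_filter, Nat.cast_mul, Nat.cast_sum, sum_mul,
        mul_sum, Nat.cast_ite, Nat.cast_one, Nat.cast_zero]
      rw [sum_comm]
      refine sum_congr rfl fun y _ => sum_congr rfl fun x _ => ?_
      split_ifs <;> simp
    · simp [h]
  have e2 : ∀ x y, (if x ≠ y then (G.dist x y : ℝ) ^ α else 0) ≤ T x y := fun x y => by
    split_ifs with h
    · refine le_trans ?_ (sum_le_sum_of_subset_of_nonneg (filter_subset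
        (fun e => G.dist x y ≤ nu G e.1 e.2 * nu G e.2 e.1) _) fun e _ _ => a0 e)
      refine le_trans ?_ (card_nsmul_le_sum _ _ ((G.dist x y : ℝ) ^ (α - 1)) fun e he =>
        Real.rpow_le_rpow (Nat.cast_nonneg _) (Nat.cast_le.2 (mem_filter.1 he).2) (by linarith))
      rw [filter_filter, nsmul_eq_mul, show α = 1 + (α - 1) by ring,
        Real.rpow_one_add' (Nat.cast_nonneg _) (by linarith), add_sub_cancel_left]
      exact mul_le_mul_of_nonneg_right (Nat.cast_le.2 (sep hc x y)) (by positivity)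
    · exact sum_nonneg fun e _ => a0 e
  obtain ⟨x, y, h1, h2⟩ := exists_far ht
  have h3 := hc.one_lt_dist_of_ne_of_not_adj h1 h2
  obtain ⟨e, he⟩ := card_pos.1 (lt_of_lt_of_le (by omega) (sep hc x y))
  obtain ⟨⟨h4, -⟩, h5⟩ := (mem_filter.1 he).2
  have h6 := SimpleGraph.dist_eq_one_iff_adj.2 h4
  have h7 : (if e.1 ≠ e.2 then (G.dist e.1 e.2 : ℝ) ^ α else 0) < T e.1 e.2 := by
    rw [if_pos h4.ne, h6, Nat.cast_one, Real.one_rpow]
    refine lt_of_lt_of_le (Real.one_lt_rpow (Nat.one_lt_cast.2 (h3.trans_le h5)) (by linarith))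
      (single_le_sum (f := fun e => a e ^ (α - 1)) (fun e _ => a0 e) (mem_filter.2
        ⟨mem_univ e, h4, by simp [h6], by simp [G.dist_comm (u := e.2), h6]⟩))
  have := sum2_lt e2 h7
  rw [e1] at this
  have h8 := two_h (G := G) α
  simp only [psi, sum_sub_distrib] at h8
  linarith

theorem zero_mem (hc : G.Connected) (ht : G ≠ ⊤) (h : hG G α = 0) : 0 < α ∧ α ≤ 1 :=
  ⟨not_le.1 fun u => (h_neg hc ht u).ne h, not_lt.1 fun u => (h_pos hc ht u).ne' h⟩

theorem rolle (k : ℕ) : ∀ f : ℕ → ℝ → ℝ, (∀ j t, HasDerivAt (f j) (f (j + 1) t) t) →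
    ∀ a : Fin (k + 1) → ℝ, StrictMono a → (∀ i, a i ∈ Set.Icc (0 : ℝ) 1 ∧ f 0 (a i) = 0) →
      ∃ ξ ∈ Set.Icc (0 : ℝ) 1, f k ξ = 0 := by
  induction k with
  | zero => exact fun f _ a _ h => ⟨a 0, h 0⟩
  | succ k ih =>
    intro f hf a ha h
    choose b hb hb' using fun i : Fin (k + 1) => exists_hasDerivAt_eq_zero
      (ha i.castSucc_lt_succ) (fun t _ => (hf 0 t).continuousAt.continuousWithinAt)
      ((h _).2.trans (h _).2.symm) fun t _ => hf 0 t
    refine ih (fun j => f (j + 1)) (fun j => hf (j + 1)) b (Fin.strictMono_iff_lt_succ.2 fun i =>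
      (hb _).2.trans (Fin.succ_castSucc i ▸ (hb _).1)) fun i =>
      ⟨⟨(h _).1.1.trans (hb i).1.le, (hb i).2.le.trans (h _).1.2⟩, hb' i⟩

open Polynomial in
/-- An exponential sum with many zeros in `(0, 1]` has a large derivative. -/
theorem expsum {ι : Type} [Fintype ι] (c l : ι → ℝ) (s : Finset ℝ)
    (hs : ∀ t ∈ s, (0 < t ∧ t ≤ 1) ∧ ∑ i, c i * Real.exp (l i * t) = 0) (h0 : 1 ≤ |∑ i, c i|) :
    ∃ ξ ∈ Set.Icc (0 : ℝ) 1, (s.card.factorial : ℝ) ≤ |∑ i, c i * l i ^ s.card * Real.exp (l i * ξ)| := by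
  set p : ℝ[X] := ∏ t ∈ s, (X - C t) with hp
  have pm : p.Monic := monic_prod_of_monic _ _ fun t _ => monic_X_sub_C t
  have pd : p.natDegree = s.card := natDegree_finsetProd_X_sub_C_eq_card s id
  have p0 : |p.eval 0| = ∏ t ∈ s, t := by
    rw [hp, eval_prod, abs_prod]
    exact prod_congr rfl fun t ht => by simp [(hs t ht).1.1.le]
  have p1 : 0 < |p.eval 0| := p0 ▸ prod_pos fun t ht => (hs t ht).1.1
  have p2 : |p.eval 0| ≤ 1 := p0 ▸ prod_le_one (fun t ht => (hs t ht).1.1.le) fun t ht => (hs t ht).1.2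
  have n0 : (0 : ℝ) ∉ s := fun h => lt_irrefl _ (hs 0 h).1.1
  obtain ⟨ξ, h1, h2⟩ := rolle s.card (fun j t => ∑ i, c i * l i ^ j * Real.exp (l i * t) -
    (∑ i, c i) / p.eval 0 * (derivative^[j] p).eval t) (fun j t => by
      rw [Function.iterate_succ_apply']
      refine (HasDerivAt.fun_sum fun i _ => ?_).fun_sub
        (((derivative^[j] p).hasDerivAt t).const_mul _)
      refine ((((hasDerivAt_id t).const_mul (l i)).exp).const_mul (c i * l i ^ j)).congr_deriv ?_
      simp only [id]
      ring) _ ((insert 0 s).orderEmbOfFin (card_insert_of_notMem n0)).strictMono fun i => by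
    rcases mem_insert.1 ((insert 0 s).orderEmbOfFin_mem (card_insert_of_notMem n0) i) with e | e
    · rw [e]
      simp [div_mul_cancel₀ _ (abs_pos.1 p1)]
    · refine ⟨⟨(hs _ e).1.1.le, (hs _ e).1.2⟩, ?_⟩
      have z : ∀ t ∈ s, p.eval t = 0 := fun t h => by
        rw [hp, eval_prod]
        exact prod_eq_zero h (by simp)
      simp only [pow_zero, mul_one, Function.iterate_zero, id, (hs _ e).2, z _ e]
      simp
  refine ⟨ξ, h1, ?_⟩
  have h3 : derivative^[s.card] p = C (s.card.factorial : ℝ) := by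
    rw [eq_C_of_natDegree_le_zero ((natDegree_iterate_derivative p _).trans (by omega)),
      coeff_iterate_derivative, zero_add, Nat.descFactorial_self, ← pd, pm.coeff_natDegree]
    simp
  rw [h3, eval_C, sub_eq_zero] at h2
  rw [h2, abs_mul, abs_div, Nat.abs_cast]
  exact le_mul_of_one_le_left (Nat.cast_nonneg _) ((one_le_div p1).2 (p2.trans h0))

theorem card_zeros (hc : G.Connected) (ht : G ≠ ⊤) (s : Finset ℝ) (hs : ∀ t ∈ s, hG G t = 0) :
    (s.card : ℝ) ≤ 11 * Real.log (Fintype.card V) := by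
  obtain ⟨x, y, hxy, -⟩ := exists_far ht
  have n2 : (2 : ℝ) ≤ Fintype.card V := by
    exact_mod_cast Fintype.one_lt_card_iff.2 ⟨x, y, hxy⟩
  set n : ℝ := (Fintype.card V : ℝ) with hn
  let c : V × V ⊕ V × V → ℝ := Sum.elim (fun e => if G.Adj e.1 e.2 then 1 else 0)
    fun e => if e.1 ≠ e.2 then -1 else 0
  let a : V × V ⊕ V × V → ℕ := Sum.elim (fun e => nu G e.1 e.2 * nu G e.2 e.1)
    fun e => G.dist e.1 e.2
  have e : ∀ t, ∑ i, c i * Real.exp (Real.log (a i) * t) = 2 * hG G t := fun t => by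
    rw [two_h, Fintype.sum_sum_type, ← sum_add_distrib, Fintype.sum_prod_type]
    refine sum_congr rfl fun u _ => sum_congr rfl fun v _ => ?_
    simp only [c, a, Sum.elim_inl, Sum.elim_inr, psi, ite_mul, one_mul, zero_mul, neg_mul]
    rw [sub_eq_add_neg, neg_ite, neg_zero]
    refine congrArg₂ _ (if_ctx_congr Iff.rfl (fun h => ?_) fun _ => rfl)
      (if_ctx_congr Iff.rfl (fun h => ?_) fun _ => rfl)
    · rw [Real.rpow_def_of_pos (by exact_mod_cast Nat.mul_pos (nu_pos h) (nu_pos h.symm))]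
    · rw [Real.rpow_def_of_pos (by exact_mod_cast hc.pos_dist_of_ne h)]
  obtain ⟨ξ, h1, h2⟩ := expsum c (fun i => Real.log (a i)) s
    (fun t h => ⟨zero_mem hc ht (hs t h), by rw [e, hs t h, mul_zero]⟩) (by
      have := e 0
      simp only [mul_zero, Real.exp_zero, mul_one] at this
      rw [this]
      exact le_abs.2 (Or.inr (by linarith [h_zero hc ht])))
  have hL : 0 < Real.log n := Real.log_pos (by linarith)
  have b : ∀ i, Real.log (a i) ≤ 2 * Real.log n := fun i => by
    have : (a i : ℝ) ≤ n ^ 2 := by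
      rcases i with i | i
      · rw [hn, sq]
        exact_mod_cast Nat.mul_le_mul (nu_le _ _) (nu_le _ _)
      · exact (Nat.cast_le.2 (dist_le_card hc _ _)).trans (by nlinarith)
    rcases Nat.eq_zero_or_pos (a i) with z | z
    · simp [z, hL.le]
    · simpa using Real.log_le_log (Nat.cast_pos.2 z) this
  have h3 : (s.card.factorial : ℝ) ≤ Real.exp (Real.log n) * Real.exp (2 * Real.log n) *
      ((2 * Real.log n) ^ s.card * Real.exp (2 * Real.log n)) := by
    refine h2.trans ((abs_sum_le_sum_abs _ _).trans ((sum_le_card_nsmul _ _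
      ((2 * Real.log n) ^ s.card * Real.exp (2 * Real.log n)) fun i _ => ?_).trans ?_))
    · have b0 := Real.log_natCast_nonneg (a i)
      have c1 : |c i| ≤ 1 := by rcases i with i | i <;> simp only [c, Sum.elim_inl,
        Sum.elim_inr] <;> split_ifs <;> simp
      rw [mul_assoc, abs_mul, abs_of_nonneg (a := _ * _) (by positivity)]
      refine (mul_le_of_le_one_left (by positivity) c1).trans ?_
      exact mul_le_mul (pow_le_pow_left₀ b0 (b i) _) (Real.exp_le_exp.2
        ((mul_le_of_le_one_right b0 h1.2).trans (b i))) (by positivity) (by positivity)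
    · rw [nsmul_eq_mul, two_mul (Real.log n), Real.exp_add, Real.exp_log (by linarith)]
      gcongr
      simp only [card_univ, Fintype.card_sum, Fintype.card_prod]
      push_cast
      nlinarith
  have h4 := Real.pow_div_factorial_le_exp (x := Real.exp 1 * (2 * Real.log n)) (by positivity) s.card
  rw [div_le_iff₀ (by positivity), mul_pow, Real.exp_one_pow] at h4
  have h5 : Real.exp s.card ≤ Real.exp (Real.exp 1 * (2 * Real.log n) + 5 * Real.log n) := by
    refine le_of_mul_le_mul_right (h4.trans ((mul_le_mul_of_nonneg_left h3 (by positivity)).trans_eq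
      ?_)) (by positivity)
    rw [show 5 * Real.log n = Real.log n + 2 * Real.log n + 2 * Real.log n by ring]
    simp only [Real.exp_add]
    ring
  have := Real.exp_one_lt_d9
  nlinarith [Real.exp_le_exp.1 h5]

end Pool.Agent.MP_dd6dde_co
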