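import Mathlib.Data.Set.Card
import Pool.Agent.MP_dd6dde_co.Basic

/-! Level graphs: a large clique of twins makes `h_G` almost linear in the rest of the graph. -/

set_option linter.unusedSectionVars false

namespace Pool.Agent.MP_dd6dde_co

open Finset
open scoped Classical

variable {V P : Type} [Fintype V] {lv : V → ℕ} {pt : V → P} {Q : Finset V} {α B : ℝ}
  {u w x y z : V}

variable (lv pt) in
/-- Vertices in different parts are adjacent when their levels differ by at most one. -/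
def Gr : SimpleGraph V where
  Adj x y := pt x ≠ pt y ∧ lv x ≤ lv y + 1 ∧ lv y ≤ lv x + 1
  symm := ⟨fun _ _ h => ⟨h.1.symm, h.2.2, h.2.1⟩⟩
  loopless := ⟨fun _ h => h.1 rfl⟩

variable (lv pt Q z) in
structure Ok : Prop where
  part : ∀ x y, pt x = pt y → x ≠ y → lv x = 0
  down : ∀ x j, j ≤ lv x → ∃ y, lv y = j
  one : ∀ x, lv x = 1 ↔ x = z
  lq : ∀ u ∈ Q, lv u = 0
  pq : ∀ u ∈ Q, ∀ x, pt x = pt u → x = u

theorem walk_ge (p : (Gr lv pt).Walk x y) : lv y ≤ lv x + p.length := by
  induction p with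
  | nil => simp
  | cons h _ ih =>
    have := h.2.2
    rw [SimpleGraph.Walk.length_cons]
    omega

theorem rpow_le {a : ℕ} (h : (a : ℝ) ≤ B ^ 2) (hB : 1 ≤ B) (h0 : 0 ≤ α) (h1 : α ≤ 1 / 2) :
    (a : ℝ) ^ α ≤ B := by
  refine (Real.rpow_le_rpow (Nat.cast_nonneg a) h h0).trans ?_
  rw [← Real.rpow_natCast, ← Real.rpow_mul (by linarith)]
  refine (Real.rpow_le_rpow_of_exponent_le hB (?_ : _ ≤ (1 : ℝ))).trans_eq (Real.rpow_one B)
  push_cast
  linarith

namespace Ok

variable (h : Ok lv pt Q z)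
include h

theorem adj (e : lv y = lv x + 1) : (Gr lv pt).Adj x y :=
  ⟨fun v => by have := h.part y x v.symm fun t => by rw [t] at e; omega
               omega, by omega, by omega⟩

theorem walk : ∀ m y, lv y = lv x + m + 1 → ∃ p : (Gr lv pt).Walk x y, p.length = m + 1 := by
  intro m
  induction m with
  | zero => exact fun y e => ⟨(h.adj e).toWalk, rfl⟩
  | succ m ih =>
    intro y e
    obtain ⟨t, ht⟩ := h.down y (lv x + m + 1) (by omega)
    obtain ⟨p, hp⟩ := ih t ht
    exact ⟨p.concat (h.adj (by omega)), by simp [hp]⟩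

theorem dist_lt (e : lv x < lv y) : (Gr lv pt).dist x y = lv y - lv x := by
  obtain ⟨p, hp⟩ := h.walk (x := x) (lv y - lv x - 1) y (by omega)
  obtain ⟨r, hr⟩ := p.reachable.exists_walk_length_eq_dist
  have := walk_ge r
  have := SimpleGraph.dist_le p
  omega

theorem conn : (Gr lv pt).Connected := by
  have k := (h.one z).2 rfl
  have : ∀ x, (Gr lv pt).Reachable x z := fun x => by
    rcases lt_trichotomy (lv x) 1 with e | e | e
    · exact (h.adj (by omega)).reachable
    · rw [(h.one x).1 e]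
    · obtain ⟨p, -⟩ := h.walk (x := z) (lv x - 2) x (by omega)
      exact p.reachable.symm
  exact @SimpleGraph.Connected.mk _ _ (fun x y => (this x).trans (this y).symm) ⟨z⟩

theorem dist0 (e : lv w = 0) (x : V) : (Gr lv pt).dist x w =
    if x = w then 0 else if pt x = pt w then 2 else max 1 (lv x) := by
  have k := (h.one z).2 rfl
  split_ifs with a b
  · simp [a]
  · have c := h.part x w b a
    have := h.conn.dist_triangle (u := x) (v := z) (w := w)
    rw [h.dist_lt (x := x) (y := z) (by omega), SimpleGraph.dist_comm (u := z),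
      h.dist_lt (x := w) (by omega)] at this
    have := h.conn.one_lt_dist_of_ne_of_not_adj a fun t => t.1 b
    omega
  · rcases Nat.eq_zero_or_pos (lv x) with c | c
    · rw [(Gr lv pt).dist_eq_one_iff_adj.2 (show (Gr lv pt).Adj x w from ⟨b, by omega, by omega⟩), c]
      rfl
    · rw [SimpleGraph.dist_comm, h.dist_lt (by omega)]
      omega

theorem distq (hu : u ∈ Q) (e : x ≠ u) : (Gr lv pt).dist u x = max 1 (lv x) := by
  rw [SimpleGraph.dist_comm, h.dist0 (h.lq u hu), if_neg e, if_neg fun t => e (h.pq u hu x t)]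

theorem psi0 (hu : u ∈ Q) (e : lv w = 0) :
    psi (Gr lv pt) α u w = ((univ.filter fun x => pt x = pt w).card : ℝ) ^ α - 1 := by
  by_cases a : u = w
  · subst a
    rw [show (univ.filter fun x => pt x = pt u) = {u} from
      eq_singleton_iff_unique_mem.2 ⟨by simp, fun x t => h.pq u hu x (mem_filter.1 t).2⟩]
    simp [psi]
  have l := h.lq u hu
  have b : pt u ≠ pt w := fun t => a (h.pq u hu w t.symm).symm
  have c : (Gr lv pt).Adj u w := ⟨b, by omega, by omega⟩
  have d : ∀ x, x ≠ u → pt x ≠ pt u := fun x t s => t (h.pq u hu x s)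
  have n1 : nu (Gr lv pt) u w = (univ.filter fun x => pt x = pt w).card := by
    rw [← card_erase_add_one (s := univ.filter fun x => pt x = pt w) (a := w) (by simp),
      ← card_insert_of_notMem (a := u) (by simp [b]), nu]
    refine congrArg card (Finset.ext fun x => ?_)
    simp only [mem_filter, mem_univ, true_and, mem_insert, mem_erase, h.dist0 l, h.dist0 e]
    by_cases t : x = u
    · simp [t, a, b]
    · by_cases s : x = w
      · simp [s, Ne.symm a]
      · by_cases r : pt x = pt w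
        · simp [t, s, r, b.symm, h.part x w r s]
        · simp [t, s, r, d x t]
  have n2 : nu (Gr lv pt) w u = 1 := by
    refine card_eq_one.2 ⟨w, Finset.ext fun x => ?_⟩
    simp only [mem_filter, mem_univ, true_and, mem_singleton, h.dist0 l, h.dist0 e]
    by_cases t : x = u
    · simp [t, a]
    · by_cases s : x = w
      · simp [s, Ne.symm a, b.symm]
      · by_cases r : pt x = pt w
        · simp [t, s, r, b.symm, h.part x w r s]
        · simp [t, s, r, d x t]
  rw [psi, if_pos c, if_pos a, n1, n2, SimpleGraph.dist_eq_one_iff_adj.2 c]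
  simp

theorem z_not : z ∉ Q := fun t => by
  have := h.lq z t
  have := (h.one z).2 rfl
  omega

theorem row (hu : u ∈ Q) (h0 : 0 ≤ α) (h1 : α ≤ 1 / 2) :
    |∑ w, psi (Gr lv pt) α u w - ∑ w, if lv w = 0 then
      ((univ.filter fun x => pt x = pt w).card : ℝ) ^ α - 1 else -(lv w : ℝ) ^ α| ≤ Qᶜ.card + 1 := by
  have k := (h.one z).2 rfl
  have l := h.lq u hu
  rw [← sum_sub_distrib, sum_eq_single z (fun w _ t => ?_) fun t => absurd (mem_univ z) t]
  · have dz : ∀ x ∈ Q, (Gr lv pt).dist x z = 1 := fun x t => by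
      rw [h.dist_lt (by rw [h.lq x t]; omega), h.lq x t, k]
    have du : ∀ x ∈ Q, x ≠ u → (Gr lv pt).dist x u = 1 := fun x t s => by
      rw [h.distq t s.symm, l]
      rfl
    have n1 : nu (Gr lv pt) u z ≤ Qᶜ.card + 1 := by
      refine (card_le_card fun x t => ?_).trans (card_insert_le u Qᶜ)
      by_contra s
      simp only [mem_insert, mem_compl, not_or, not_not] at s
      have := (mem_filter.1 t).2
      rw [dz x s.2, du x s.2 s.1] at this
      omega
    have n2 : nu (Gr lv pt) z u ≤ Qᶜ.card + 1 := by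
      refine (card_le_card fun x t => mem_compl.2 fun s => ?_).trans (Nat.le_succ _)
      have := (mem_filter.1 t).2
      by_cases r : x = u
      · simp [r] at this
      · rw [dz x s, du x s r] at this
        omega
    rw [psi, if_pos (h.adj (by omega)), if_pos (ne_of_mem_of_not_mem hu h.z_not), dz u hu,
      if_neg (by omega), k, sub_neg_eq_add, sub_add_cancel, abs_of_nonneg (by positivity)]
    exact rpow_le (by rw [sq]; exact_mod_cast Nat.mul_le_mul n1 n2) (by simp) h0 h1
  · split_ifs with e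
    · rw [h.psi0 hu e, sub_self]
    · have c : lv w ≠ 1 := fun s => t ((h.one w).1 s)
      have a : u ≠ w := fun s => e (s ▸ l)
      rw [psi, if_neg fun s => by have := s.2.2; omega, if_pos a, h.distq hu a.symm,
        max_eq_right (by omega)]
      simp

theorem cell (hx : x ∉ Q) (hy : y ∉ Q) (h0 : 0 ≤ α) (h1 : α ≤ 1 / 2) (hB : 1 ≤ B)
    (hn : (Fintype.card V : ℝ) * Qᶜ.card ≤ B ^ 2) : |psi (Gr lv pt) α x y| ≤ B := by
  have side : ∀ a b, a ∉ Q → b ∉ Q → lv a ≤ lv b → nu (Gr lv pt) b a ≤ Qᶜ.card := fun a b s t r =>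
    card_le_card fun v m => mem_compl.2 fun c => by
      have := (mem_filter.1 m).2
      rw [h.distq c (ne_of_mem_of_not_mem c t).symm, h.distq c (ne_of_mem_of_not_mem c s).symm] at this
      omega
  have a1 : nu (Gr lv pt) x y * nu (Gr lv pt) y x ≤ Fintype.card V * Qᶜ.card := by
    rcases le_total (lv x) (lv y) with r | r
    · exact Nat.mul_le_mul (nu_le _ _) (side x y hx hy r)
    · rw [mul_comm]
      exact Nat.mul_le_mul (nu_le _ _) (side y x hy hx r)
  have a2 : (Gr lv pt).dist x y ≤ Fintype.card V * Qᶜ.card := (dist_le_card h.conn x y).trans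
    (Nat.le_mul_of_pos_right _ (card_pos.2 ⟨x, mem_compl.2 hx⟩))
  have b1 := rpow_le (le_trans (by exact_mod_cast a1) hn) hB h0 h1
  have b2 := rpow_le (le_trans (by exact_mod_cast a2) hn) hB h0 h1
  have c1 : (0 : ℝ) ≤ ((nu (Gr lv pt) x y * nu (Gr lv pt) y x : ℕ) : ℝ) ^ α := by positivity
  have c2 : (0 : ℝ) ≤ ((Gr lv pt).dist x y : ℝ) ^ α := by positivity
  rw [psi, abs_le]
  split_ifs <;> constructor <;> linarith

theorem main (h0 : 0 ≤ α) (h1 : α ≤ 1 / 2) (hB : 1 ≤ B)
    (hn : (Fintype.card V : ℝ) * Qᶜ.card ≤ B ^ 2) :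
    |2 * hG (Gr lv pt) α - 2 * Q.card * ∑ w, if lv w = 0 then
      ((univ.filter fun x => pt x = pt w).card : ℝ) ^ α - 1 else -(lv w : ℝ) ^ α| ≤
      2 * Q.card * (Qᶜ.card + 1) + Qᶜ.card ^ 2 * B := by
  set Φ := ∑ w, if lv w = 0 then
      ((univ.filter fun x => pt x = pt w).card : ℝ) ^ α - 1 else -(lv w : ℝ) ^ α
  have e1 : ∑ x ∈ Qᶜ, ∑ y ∈ Q, psi (Gr lv pt) α x y = ∑ u ∈ Q, ∑ w, psi (Gr lv pt) α u w := by
    rw [sum_comm]
    refine sum_congr rfl fun u hu => ?_
    rw [← sum_add_sum_compl Q, sum_eq_zero (s := Q) fun w hw => ?_, zero_add]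
    · exact sum_congr rfl fun x _ => psi_symm x u
    · rw [psi_symm, psi_symm, h.psi0 hu (h.lq w hw), show (univ.filter fun x => pt x = pt w) = {w}
        from eq_singleton_iff_unique_mem.2 ⟨by simp, fun x t => h.pq w hw x (mem_filter.1 t).2⟩]
      simp
  have e2 : 2 * hG (Gr lv pt) α - 2 * Q.card * Φ = 2 * ∑ u ∈ Q, (∑ w, psi (Gr lv pt) α u w - Φ) +
      ∑ x ∈ Qᶜ, ∑ y ∈ Qᶜ, psi (Gr lv pt) α x y := by
    rw [two_h, ← sum_add_sum_compl Q, sum_congr rfl fun x (_ : x ∈ Qᶜ) =>
      (sum_add_sum_compl Q _).symm, sum_add_distrib, e1, sum_sub_distrib, sum_const, nsmul_eq_mul]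
    ring
  have b1 := (abs_sum_le_sum_abs _ _).trans (sum_le_card_nsmul Q _ _ fun u hu => h.row hu h0 h1)
  have b2 := (abs_sum_le_sum_abs _ _).trans (sum_le_card_nsmul Qᶜ _ _ fun x hx =>
    (abs_sum_le_sum_abs _ _).trans (sum_le_card_nsmul Qᶜ _ _ fun y hy =>
      h.cell (mem_compl.1 hx) (mem_compl.1 hy) h0 h1 hB hn))
  simp only [nsmul_eq_mul] at b1 b2
  rw [e2]
  refine (abs_add_le _ _).trans ?_
  rw [abs_mul, abs_two]
  nlinarith

theorem main' {R : ℕ} {S : V → ℕ} (hR : Fintype.card V = Q.card + R)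
    (hS : ∀ w, {x | pt x = pt w}.ncard = S w) (h0 : 0 ≤ α) (h1 : α ≤ 1 / 2) (hB : 1 ≤ B)
    (hn : (Fintype.card V : ℝ) * R ≤ B ^ 2) :
    |2 * hG (Gr lv pt) α - 2 * Q.card * ∑ w, if lv w = 0 then (S w : ℝ) ^ α - 1
      else -(lv w : ℝ) ^ α| ≤ 2 * Q.card * (R + 1) + R ^ 2 * B := by
  have e : Qᶜ.card = R := by rw [card_compl]; omega
  have := h.main h0 h1 hB (e ▸ hn)
  simp only [← hS, Set.ncard_eq_toFinset_card', Set.toFinset_ofPred]
  rwa [e] at this

end Ok

end Pool.Agent.MP_dd6dde_co
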