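import Mathlib.Combinatorics.SimpleGraph.Diam
import Pool.Agent.MP_dd6dde_co.Level

/-! Level graphs with a prescribed diameter and number of vertices. -/

set_option linter.unusedSectionVars false

namespace Pool.Agent.MP_dd6dde_co

open Finset
open scoped Classical

theorem diam_eq {V : Type} [Fintype V] {G : SimpleGraph V} {D : ℕ} (hc : G.Connected)
    (h : ∀ x y, G.dist x y ≤ D) {a b : V} (e : G.dist a b = D) : G.diam = D := by
  have := hc.nonempty
  obtain ⟨u, v, t⟩ := G.exists_dist_eq_diam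
  exact (t ▸ h u v).antisymm (e ▸ G.dist_le_diam (G.connected_iff_ediam_ne_top.1 hc))

theorem dist_diam {V : Type} [Fintype V] {G : SimpleGraph V} (hc : G.Connected) (x y : V) :
    G.dist x y ≤ G.diam := by
  have := hc.nonempty
  exact G.dist_le_diam (G.connected_iff_ediam_ne_top.1 hc)

theorem ne_top_iff {V : Type} [Fintype V] {G : SimpleGraph V} (hc : G.Connected) :
    G ≠ ⊤ ↔ 2 ≤ G.diam := by
  have := hc.nonempty
  refine ⟨fun h => ?_, fun h e => ?_⟩
  · obtain ⟨x, y, a, b⟩ := exists_far h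
    exact (hc.one_lt_dist_of_ne_of_not_adj a b).trans_le (dist_diam hc x y)
  · obtain ⟨u, v, t⟩ := G.exists_dist_eq_diam
    by_cases s : u = v
    · rw [s, G.dist_self] at t
      omega
    · rw [G.dist_eq_one_iff_adj.2 (e.ge s)] at t
      omega

theorem dist_iso {V W : Type} {G : SimpleGraph V} {H : SimpleGraph W} (φ : G ≃g H)
    (hc : G.Connected) (a b : V) : H.dist (φ a) (φ b) = G.dist a b := by
  have : ∀ {V W : Type} {G : SimpleGraph V} {H : SimpleGraph W} (φ : G ≃g H) (_ : G.Connected)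
      (a b : V), H.dist (φ a) (φ b) ≤ G.dist a b := fun φ hc a b => by
    obtain ⟨p, hp⟩ := hc.exists_walk_length_eq_dist a b
    exact (SimpleGraph.dist_le (p.map φ.toHom)).trans_eq (by rw [p.length_map, hp])
  exact (this φ hc a b).antisymm
    (by simpa using this φ.symm (φ.connected_iff.1 hc) (φ a) (φ b))

theorem h_iso {V W : Type} [Fintype V] [Fintype W] {G : SimpleGraph V} {H : SimpleGraph W}
    (φ : G ≃g H) (hc : G.Connected) (α : ℝ) : hG H α = hG G α := by
  have d := dist_iso φ hc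
  have m : ∀ a b, nu H (φ a) (φ b) = nu G a b := fun a b =>
    (card_equiv φ.toEquiv fun w => by simp [d]).symm
  have : 2 * hG H α = 2 * hG G α := by
    rw [two_h, two_h, ← φ.toEquiv.sum_comp]
    refine sum_congr rfl fun a _ => ?_
    rw [← φ.toEquiv.sum_comp]
    exact sum_congr rfl fun b _ => by simp [psi, d, m, φ.map_adj_iff]
  linarith

namespace Ok

variable {V P : Type} [Fintype V] {lv : V → ℕ} {pt : V → P} {Q : Finset V} {α : ℝ}
  {u x y z : V} (h : Ok lv pt Q z)
include h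

theorem dist_le {D : ℕ} (h2 : 2 ≤ D) (hD : ∀ x, lv x ≤ D) (x y : V) :
    (Gr lv pt).dist x y ≤ D := by
  have a := hD x
  have b := hD y
  rcases lt_trichotomy (lv x) (lv y) with e | e | e
  · rw [h.dist_lt e]
    omega
  · by_cases s : lv y = 0
    · rw [h.dist0 s]
      split_ifs <;> omega
    · by_cases t : x = y
      · simp [t]
      · rw [(Gr lv pt).dist_eq_one_iff_adj.2 (show (Gr lv pt).Adj x y from
          ⟨fun r => s (e ▸ h.part x y r t), by omega, by omega⟩)]
        omega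
  · rw [SimpleGraph.dist_comm, h.dist_lt e]
    omega

theorem row2 (hu : u ∈ Q) (h0 : 0 ≤ α) :
    |∑ w, psi (Gr lv pt) α u w - ∑ w, if lv w = 0 then
      ((univ.filter fun x => pt x = pt w).card : ℝ) ^ α - 1 else -(lv w : ℝ) ^ α| ≤
      (Qᶜ.card : ℝ) ^ α := by
  have k := (h.one z).2 rfl
  have l := h.lq u hu
  rw [← sum_sub_distrib, sum_eq_single z (fun w _ t => ?_) fun t => absurd (mem_univ z) t]
  · have dz : ∀ x, lv x = 0 → (Gr lv pt).dist x z = 1 := fun x t => by
      rw [h.dist_lt (by omega), t, k]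
    have n1 : nu (Gr lv pt) u z ≤ 1 := by
      refine (card_le_card fun x t => mem_singleton.2 (by_contra fun s => ?_)).trans_eq
        (card_singleton u)
      have := (mem_filter.1 t).2
      rw [SimpleGraph.dist_comm, h.distq hu s] at this
      rcases lt_trichotomy (lv x) 1 with e | e | e
      · rw [dz x (by omega)] at this
        omega
      · simp [(h.one x).1 e] at this
      · rw [SimpleGraph.dist_comm, h.dist_lt (by omega)] at this
        omega
    have n2 : nu (Gr lv pt) z u ≤ Qᶜ.card := by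
      refine card_le_card fun x t => mem_compl.2 fun s => ?_
      have := (mem_filter.1 t).2
      by_cases r : x = u
      · simp [r] at this
      · rw [dz x (h.lq x s), h.distq s (Ne.symm r), l] at this
        omega
    rw [psi, if_pos (h.adj (by omega)), if_pos (ne_of_mem_of_not_mem hu h.z_not), dz u l,
      if_neg (by omega), k, sub_neg_eq_add, sub_add_cancel, abs_of_nonneg (by positivity)]
    exact Real.rpow_le_rpow (Nat.cast_nonneg _)
      (Nat.cast_le.2 ((Nat.mul_le_mul n1 n2).trans_eq (one_mul _))) h0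
  · split_ifs with e
    · rw [h.psi0 hu e, sub_self]
    · have c : lv w ≠ 1 := fun s => t ((h.one w).1 s)
      have a : u ≠ w := fun s => e (s ▸ l)
      rw [psi, if_neg fun s => by have := s.2.2; omega, if_pos a, h.distq hu a.symm,
        max_eq_right (by omega)]
      simp

theorem cell2 (hx : x ∉ Q) (hy : y ∉ Q) (h0 : 0 ≤ α) :
    |psi (Gr lv pt) α x y| ≤ ((Fintype.card V : ℝ) * Qᶜ.card) ^ α := by
  have side : ∀ a b, a ∉ Q → b ∉ Q → lv a ≤ lv b → nu (Gr lv pt) b a ≤ Qᶜ.card := fun a b s t r =>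
    card_le_card fun v m => mem_compl.2 fun c => by
      have := (mem_filter.1 m).2
      rw [h.distq c (ne_of_mem_of_not_mem c t).symm, h.distq c (ne_of_mem_of_not_mem c s).symm] at this
      omega
  have a1 : nu (Gr lv pt) x y * nu (Gr lv pt) y x ≤ Fintype.card V * Qᶜ.card := by
    rcases le_total (lv x) (lv y) with r | r
    · exact Nat.mul_le_mul (nu_le _ _) (side x y hx hy r)
    · rw [mul_comm]
      exact Nat.mul_le_mul (nu_le _ _) (side y x hy hx r)
  have a2 : (Gr lv pt).dist x y ≤ Fintype.card V * Qᶜ.card := (dist_le_card h.conn x y).trans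
    (Nat.le_mul_of_pos_right _ (card_pos.2 ⟨x, mem_compl.2 hx⟩))
  have b1 := Real.rpow_le_rpow (Nat.cast_nonneg _) (Nat.cast_le.2 a1) h0
  have b2 := Real.rpow_le_rpow (Nat.cast_nonneg _) (Nat.cast_le.2 a2) h0
  have c1 : (0 : ℝ) ≤ ((nu (Gr lv pt) x y * nu (Gr lv pt) y x : ℕ) : ℝ) ^ α := by positivity
  have c2 : (0 : ℝ) ≤ ((Gr lv pt).dist x y : ℝ) ^ α := by positivity
  rw [psi, abs_le, ← Nat.cast_mul]
  split_ifs <;> constructor <;> linarith

theorem main2 {R : ℕ} {S : V → ℕ} (hR : Fintype.card V = Q.card + R)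
    (hS : ∀ w, {x | pt x = pt w}.ncard = S w) (h0 : 0 ≤ α) :
    |2 * hG (Gr lv pt) α - 2 * Q.card * ∑ w, if lv w = 0 then (S w : ℝ) ^ α - 1
      else -(lv w : ℝ) ^ α| ≤ 2 * Q.card * R ^ α + R ^ 2 * ((Fintype.card V : ℝ) * R) ^ α := by
  obtain rfl : Qᶜ.card = R := by rw [card_compl]; omega
  simp only [← hS, Set.ncard_eq_toFinset_card', Set.toFinset_ofPred]
  set Φ := ∑ w, if lv w = 0 then
      ((univ.filter fun x => pt x = pt w).card : ℝ) ^ α - 1 else -(lv w : ℝ) ^ α
  have e1 : ∑ x ∈ Qᶜ, ∑ y ∈ Q, psi (Gr lv pt) α x y = ∑ u ∈ Q, ∑ w, psi (Gr lv pt) α u w := by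
    rw [sum_comm]
    refine sum_congr rfl fun u hu => ?_
    rw [← sum_add_sum_compl Q, sum_eq_zero (s := Q) fun w hw => ?_, zero_add]
    · exact sum_congr rfl fun x _ => psi_symm x u
    · rw [psi_symm, psi_symm, h.psi0 hu (h.lq w hw), show (univ.filter fun x => pt x = pt w) = {w}
        from eq_singleton_iff_unique_mem.2 ⟨by simp, fun x t => h.pq w hw x (mem_filter.1 t).2⟩]
      simp
  have e2 : 2 * hG (Gr lv pt) α - 2 * Q.card * Φ = 2 * ∑ u ∈ Q, (∑ w, psi (Gr lv pt) α u w - Φ) +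
      ∑ x ∈ Qᶜ, ∑ y ∈ Qᶜ, psi (Gr lv pt) α x y := by
    rw [two_h, ← sum_add_sum_compl Q, sum_congr rfl fun x (_ : x ∈ Qᶜ) =>
      (sum_add_sum_compl Q _).symm, sum_add_distrib, e1, sum_sub_distrib, sum_const, nsmul_eq_mul]
    ring
  have b1 := (abs_sum_le_sum_abs _ _).trans (sum_le_card_nsmul Q _ _ fun u hu => h.row2 hu h0)
  have b2 := (abs_sum_le_sum_abs _ _).trans (sum_le_card_nsmul Qᶜ _ _ fun x hx =>
    (abs_sum_le_sum_abs _ _).trans (sum_le_card_nsmul Qᶜ _ _ fun y hy =>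
      h.cell2 (mem_compl.1 hx) (mem_compl.1 hy) h0))
  simp only [nsmul_eq_mul] at b1 b2
  rw [e2]
  refine (abs_add_le _ _).trans ?_
  rw [abs_mul, abs_two]
  nlinarith

end Ok

theorem build {D n R : ℕ} (h2 : 2 ≤ D) {I : Type} [Fintype I] (m sz lv : I → ℕ)
    (h1 : ∀ i, lv i ≠ 0 → sz i = 1) (h3 : ∀ i, lv i ≠ 1 ∧ lv i ≤ D)
    (hR : R = D + ∑ i, m i * sz i) (hn : R < n) : ∃ G : SimpleGraph (Fin n), G.Connected ∧
      G.diam = D ∧ ∀ α : ℝ, 0 ≤ α → |2 * hG G α - 2 * (n - R) * (∑ i, (m i * sz i : ℕ) *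
        (if lv i = 0 then (sz i : ℝ) ^ α - 1 else -(lv i : ℝ) ^ α) -
        ∑ j : Fin D, ((j + 1 : ℕ) : ℝ) ^ α)| ≤ 2 * (n - R) * R ^ α + R ^ 2 * ((n : ℝ) * R) ^ α := by
  let P := Fin (n - R) ⊕ Fin D ⊕ Σ i, Fin (m i)
  let s : P → ℕ := Sum.elim (fun _ => 1) (Sum.elim (fun _ => 1) fun p => sz p.1)
  let lp : P → ℕ := Sum.elim (fun _ => 0) (Sum.elim (fun j => j + 1) fun p => lv p.1)
  let V := Σ p : P, Fin (s p)
  let ι : Fin (n - R) → V := fun a => ⟨Sum.inl a, (0 : Fin 1)⟩
  let κ : Fin D → V := fun j => ⟨Sum.inr (Sum.inl j), (0 : Fin 1)⟩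
  have ιi : Function.Injective ι := fun a b h => Sum.inl.inj (congrArg Sigma.fst h)
  have one : ∀ x y : V, x.1 = y.1 → s x.1 = 1 → x = y := by
    rintro ⟨p, a⟩ ⟨q, b⟩ (rfl : p = q) (h : s p = 1)
    exact congrArg _ (Fin.ext (by omega))
  have cV : Fintype.card V = n := by
    simp only [V, P, s, Fintype.card_sigma, Fintype.card_fin, Fintype.sum_sum_type, Sum.elim_inl,
      Sum.elim_inr, Fintype.sum_sigma, sum_const, card_univ, smul_eq_mul]
    omega
  have le : ∀ x : V, lp x.1 ≤ D := by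
    rintro ⟨a | a | a, b⟩
    · exact Nat.zero_le _
    · exact a.2
    · exact (h3 _).2
  have ok : Ok (fun x : V => lp x.1) Sigma.fst (univ.image ι) (κ ⟨0, by omega⟩) := by
    refine ⟨fun x y h t => by_contra fun u => t (one x y h ?_), fun x j h => ?_, fun x => ?_, ?_, ?_⟩
    · rcases x with ⟨a | a | a, b⟩
      · rfl
      · rfl
      · exact h1 _ u
    · have := le x
      rcases j with _ | j
      · exact ⟨ι ⟨0, by omega⟩, rfl⟩
      · exact ⟨κ ⟨j, by omega⟩, rfl⟩
    · refine ⟨fun h => ?_, fun h => by rw [h]; rfl⟩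
      rcases x with ⟨a | a | a, b⟩
      · exact absurd h (by simp [lp])
      · exact one _ _ (congrArg (fun j => Sum.inr (Sum.inl j)) (Fin.ext (Nat.succ.inj h))) rfl
      · exact absurd h (h3 _).1
    · intro u hu
      obtain ⟨a, -, rfl⟩ := mem_image.1 hu
      rfl
    · intro u hu x h
      obtain ⟨a, -, rfl⟩ := mem_image.1 hu
      exact one _ _ h (by rw [h]; rfl)
  have cQ : (univ.image ι).card = n - R := by rw [card_image_of_injective _ ιi]; simp
  have cs : ∀ w : V, {x : V | x.1 = w.1}.ncard = s w.1 := fun w => by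
    rw [show {x : V | x.1 = w.1} = Set.range (Sigma.mk w.1) from (Set.range_sigmaMk _).symm,
      Set.ncard_range_of_injective sigma_mk_injective]
    simp
  let φ := SimpleGraph.Iso.map (Fintype.equivFinOfCardEq cV) (Gr (fun x : V => lp x.1) Sigma.fst)
  have c := φ.connected_iff.1 ok.conn
  refine ⟨_, c, diam_eq c (fun x y => ?_) (a := φ (ι ⟨0, by omega⟩)) (b := φ (κ ⟨D - 1, by omega⟩))
    ?_, fun α h0 => ?_⟩
  · obtain ⟨x, rfl⟩ := φ.surjective x
    obtain ⟨y, rfl⟩ := φ.surjective y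
    rw [dist_iso φ ok.conn]
    exact ok.dist_le h2 le x y
  · rw [dist_iso φ ok.conn, ok.dist_lt (by exact Nat.succ_pos _)]
    show D - 1 + 1 - 0 = D
    omega
  · have key := ok.main2 (R := R) (by omega) cs h0
    rw [cQ, cV, Nat.cast_sub hn.le] at key
    rw [h_iso φ ok.conn]
    convert key using 4
    simp only [V, P, Fintype.sum_sigma, Fintype.sum_sum_type, sum_const, card_univ,
      Fintype.card_fin, nsmul_eq_mul, s, lp, Sum.elim_inl, Sum.elim_inr, ← mul_assoc,
      ← Nat.cast_mul]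
    simp [sub_eq_neg_add]

end Pool.Agent.MP_dd6dde_co
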