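import Mathlib.Analysis.SpecialFunctions.Log.Base
import Mathlib.Analysis.SpecialFunctions.Pow.Continuity
import Mathlib.Topology.Order.IntermediateValue
import Pool.Agent.MP_dd6dde_co.Level

/-! Level graphs whose function `h_G` follows a Chebyshev polynomial in `36 ^ α`. -/

namespace Pool.Agent.MP_dd6dde_co

open Finset Real
open scoped Classical

theorem cheb (k : ℕ) : ∃ (I : Type) (_ : Fintype I) (e : I → ℕ) (s : I → Prop), (∀ i, e i ≤ k) ∧
    Fintype.card I ≤ 13 ^ k ∧ ∀ θ : ℝ,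
      ∑ i, (if s i then (5 + cos θ) ^ e i else -(5 + cos θ) ^ e i) = cos (k * θ) := by
  induction k using Nat.twoStepInduction with
  | zero => exact ⟨Unit, inferInstance, fun _ => 0, fun _ => True, by simp, by simp, by simp⟩
  | one => exact ⟨Unit ⊕ Fin 5, inferInstance, Sum.elim (fun _ => 1) fun _ => 0,
      Sum.elim (fun _ => True) fun _ => False, by simp, by simp, fun θ => by simp⟩
  | more k h0 h1 =>
    obtain ⟨I, _, e, s, a1, a2, a3⟩ := h0
    obtain ⟨J, _, f, t, b1, b2, b3⟩ := h1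
    refine ⟨Fin 2 × J ⊕ Fin 10 × J ⊕ I, inferInstance,
      Sum.elim (fun p => f p.2 + 1) (Sum.elim (fun p => f p.2) e),
      Sum.elim (fun p => t p.2) (Sum.elim (fun p => ¬ t p.2) fun i => ¬ s i), ?_, ?_, fun θ => ?_⟩
    · rintro (p | p | i)
      · exact Nat.succ_le_succ (b1 p.2)
      · exact (b1 p.2).trans (Nat.le_succ _)
      · exact (a1 i).trans (by omega)
    · simp only [Fintype.card_sum, Fintype.card_prod, Fintype.card_fin, pow_succ] at b2 ⊢
      omega
    · have c1 : ∑ j, (if t j then (5 + cos θ) ^ (f j + 1) else -(5 + cos θ) ^ (f j + 1)) =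
          (5 + cos θ) * cos ((k + 1 : ℕ) * θ) := by
        rw [← b3, mul_sum]
        exact sum_congr rfl fun j _ => by split_ifs <;> ring
      have c2 : ∑ j, (if ¬ t j then (5 + cos θ) ^ f j else -(5 + cos θ) ^ f j) =
          -cos ((k + 1 : ℕ) * θ) := by
        rw [← b3, ← sum_neg_distrib]
        exact sum_congr rfl fun j _ => by by_cases u : t j <;> simp [u]
      have c3 : ∑ i, (if ¬ s i then (5 + cos θ) ^ e i else -(5 + cos θ) ^ e i) = -cos (k * θ) := by
        rw [← a3, ← sum_neg_distrib]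
        exact sum_congr rfl fun j _ => by by_cases u : s j <;> simp [u]
      simp only [Fintype.sum_sum_type, Fintype.sum_prod_type, Sum.elim_inl, Sum.elim_inr, sum_const,
        card_univ, Fintype.card_fin, nsmul_eq_mul]
      rw [c1]
      erw [c2, c3]
      rw [show ((k + 2 : ℕ) : ℝ) * θ = (k + 1 : ℕ) * θ + θ by push_cast; ring,
        show (k : ℝ) * θ = (k + 1 : ℕ) * θ - θ by push_cast; ring, cos_add, cos_sub]
      push_cast
      ring

theorem h_cont {V : Type} [Fintype V] {G : SimpleGraph V} (hc : G.Connected) :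
    Continuous (hG G) := by
  have : hG G = fun α => (∑ x, ∑ y, psi G α x y) / 2 := funext fun α => by rw [← two_h]; ring
  rw [this]
  refine (continuous_finsetSum _ fun x _ => continuous_finsetSum _ fun y _ => ?_).div_const _
  unfold psi
  refine Continuous.sub ?_ ?_ <;> split_ifs with h
  · exact continuous_const_rpow (Nat.cast_ne_zero.2 (Nat.mul_pos (nu_pos h) (nu_pos h.symm)).ne')
  · exact continuous_const
  · exact continuous_const_rpow (Nat.cast_ne_zero.2 (hc.pos_dist_of_ne h).ne')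
  · exact continuous_const

/-- The exponent with `36 ^ α = 5 + cos θ`. -/
noncomputable def ex (θ : ℝ) : ℝ := logb 36 (5 + cos θ)

theorem ex_pow (θ : ℝ) (m : ℕ) : ((36 ^ m : ℕ) : ℝ) ^ ex θ = (5 + cos θ) ^ m := by
  rw [Nat.cast_pow, ← rpow_natCast, ← rpow_mul (by positivity), mul_comm, rpow_mul (by positivity),
    rpow_natCast, ex, Nat.cast_ofNat, rpow_logb (by norm_num) (by norm_num)
    (by linarith [neg_one_le_cos θ])]

theorem ex_mem (θ : ℝ) : 0 ≤ ex θ ∧ ex θ ≤ 1 / 2 := by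
  refine ⟨logb_nonneg (by norm_num) (by linarith [neg_one_le_cos θ]), ?_⟩
  rw [ex, logb_le_iff_le_rpow (by norm_num) (by linarith [neg_one_le_cos θ]), ← sqrt_eq_rpow,
    show (36 : ℝ) = 6 ^ 2 by norm_num, sqrt_sq (by norm_num)]
  linarith [cos_le_one θ]

theorem graph (k n : ℕ) (hn : 36 ^ (36 * (k + 1)) ≤ n) : ∃ (V : Type) (_ : Fintype V)
    (G : SimpleGraph V), Fintype.card V = n ∧ G.Connected ∧ G ≠ ⊤ ∧
      ∀ (θ : ℝ) (i : ℕ), cos (k * θ) = (-1) ^ i → 0 < (-1) ^ i * hG G (ex θ) := by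
  obtain ⟨I, _, e, s, he, hI, hs⟩ := cheb k
  obtain ⟨D, hD⟩ : ∃ D, D = 36 ^ (3 * k + 3) := ⟨_, rfl⟩
  obtain ⟨R, hR⟩ : ∃ R, R = D + D ^ 2 * Fintype.card I := ⟨_, rfl⟩
  have D2 : 2 ≤ D := hD ▸ le_trans (by norm_num) (Nat.le_self_pow (by omega) 36)
  have DR : D ≤ R := by omega
  have R1 : R ≤ D ^ 2 * (13 ^ k + 1) := by nlinarith [Nat.mul_le_mul_left (D ^ 2) hI]
  have R2 : 2 * R ^ 5 ≤ n := by
    have a : 13 ^ k + 1 ≤ 36 ^ (k + 1) := by
      have := Nat.pow_le_pow_left (show 13 ≤ 36 by norm_num) k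
      have := Nat.one_le_pow k 36 (by norm_num)
      omega
    have b : R ≤ 36 ^ (7 * k + 7) := R1.trans ((Nat.mul_le_mul_left _ a).trans_eq (by rw [hD]; ring))
    calc 2 * R ^ 5 ≤ 36 ^ (k + 1) * (36 ^ (7 * k + 7)) ^ 5 := Nat.mul_le_mul
          (le_trans (by norm_num) (Nat.le_self_pow (by omega) 36)) (Nat.pow_le_pow_left b 5)
      _ = 36 ^ (36 * (k + 1)) := by ring
      _ ≤ n := hn
  have R3 : 2 * R ≤ n := le_trans (Nat.mul_le_mul_left 2 (Nat.le_self_pow (by omega) R)) R2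
  let m : I → ℕ := fun i => if s i then D * 36 ^ (k - e i) else D ^ 2
  let P := Fin (n - R) ⊕ Fin D ⊕ Σ i, Fin (m i)
  let sz : P → ℕ := Sum.elim (fun _ => 1)
    (Sum.elim (fun _ => 1) fun p => if s p.1 then 36 ^ (2 * k + 3 + e p.1) else 1)
  let lp : P → ℕ := Sum.elim (fun _ => 0)
    (Sum.elim (fun j => j + 1) fun p => if s p.1 then 0 else 36 ^ (2 * k + 3 + e p.1))
  let V := Σ p : P, Fin (sz p)
  let ι : Fin (n - R) → V := fun a => ⟨Sum.inl a, (0 : Fin 1)⟩
  let κ : Fin D → V := fun j => ⟨Sum.inr (Sum.inl j), (0 : Fin 1)⟩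
  have ιi : Function.Injective ι := fun a b h => Sum.inl.inj (congrArg Sigma.fst h)
  have ms : ∀ i, m i * (if s i then 36 ^ (2 * k + 3 + e i) else 1) = D ^ 2 := fun i => by
    simp only [m]
    split_ifs
    · rw [mul_assoc, ← pow_add, show k - e i + (2 * k + 3 + e i) = 3 * k + 3 by
        have := he i; omega, ← hD, sq]
    · exact mul_one _
  have one : ∀ x y : V, x.1 = y.1 → sz x.1 = 1 → x = y := by
    rintro ⟨p, a⟩ ⟨q, b⟩ (rfl : p = q) (h : sz p = 1)
    exact congrArg _ (Fin.ext (by omega))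
  have cV : Fintype.card V = n := by
    simp only [V, P, sz, Fintype.card_sigma, Fintype.card_fin, Fintype.sum_sum_type, Sum.elim_inl,
      Sum.elim_inr, Fintype.sum_sigma, sum_const, card_univ, smul_eq_mul, ms]
    rw [mul_comm _ (D ^ 2)]
    omega
  have ok : Ok (fun x : V => lp x.1) Sigma.fst (univ.image ι) (κ ⟨0, by omega⟩) := by
    refine ⟨fun x y h t => by_contra fun u => t (one x y h ?_), fun x j h => ?_, fun x => ?_, ?_, ?_⟩
    · rcases x with ⟨a | a | a, b⟩
      · rfl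
      · rfl
      · exact if_neg fun v => u (if_pos v)
    · have : lp x.1 ≤ D := by
        rcases x with ⟨a | a | a, b⟩
        · exact Nat.zero_le _
        · exact a.2
        · show (if s a.1 then 0 else 36 ^ (2 * k + 3 + e a.1)) ≤ D
          split_ifs
          · exact Nat.zero_le _
          · exact hD ▸ Nat.pow_le_pow_right (by norm_num) (by have := he a.1; omega)
      rcases j with _ | j
      · exact ⟨ι ⟨0, by omega⟩, rfl⟩
      · exact ⟨κ ⟨j, by omega⟩, rfl⟩
    · refine ⟨fun h => ?_, fun h => by rw [h]; rfl⟩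
      rcases x with ⟨a | a | a, b⟩
      · exact absurd h (by simp [lp])
      · exact one _ _ (congrArg (fun j => Sum.inr (Sum.inl j)) (Fin.ext (Nat.succ.inj h))) rfl
      · have h : (if s a.1 then 0 else 36 ^ (2 * k + 3 + e a.1)) = 1 := h
        split_ifs at h
        simp at h
    · intro u hu
      obtain ⟨a, -, rfl⟩ := mem_image.1 hu
      rfl
    · intro u hu x h
      obtain ⟨a, -, rfl⟩ := mem_image.1 hu
      exact one _ _ h (by rw [h]; rfl)
  have cQ : (univ.image ι).card = n - R := by rw [card_image_of_injective _ ιi]; simp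
  refine ⟨V, inferInstance, _, cV, ok.conn, fun h => ?_, fun θ i hθ => ?_⟩
  · have : (Gr (fun x : V => lp x.1) Sigma.fst).Adj (ι ⟨0, by omega⟩) (κ ⟨1, by omega⟩) := by
      rw [h]
      exact fun t => Sum.inl_ne_inr (congrArg Sigma.fst t)
    exact absurd this.2.2 (by simp [ι, κ, lp])
  have R0 : (2 : ℝ) ≤ R := by exact_mod_cast D2.trans DR
  have r2 : (2 : ℝ) * R ^ 5 ≤ n := by exact_mod_cast R2
  have r3 : (2 : ℝ) * R ≤ n := by exact_mod_cast R3
  have r4 : (R : ℝ) ^ 2 ≤ R ^ 5 := pow_le_pow_right₀ (by linarith) (by norm_num)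
  have cs : ∀ w : V, {x : V | x.1 = w.1}.ncard = sz w.1 := fun w => by
    rw [show {x : V | x.1 = w.1} = Set.range (Sigma.mk w.1) from (Set.range_sigmaMk _).symm,
      Set.ncard_range_of_injective sigma_mk_injective]
    simp
  have key := ok.main' (B := n / R ^ 2) (R := R) (by omega) cs (ex_mem θ).1 (ex_mem θ).2
    ((one_le_div (by positivity)).2 (by nlinarith [pow_pos (show (0 : ℝ) < R by linarith) 5])) (by
      rw [cV, div_pow, le_div_iff₀ (by positivity)]
      nlinarith [pow_pos (show (0 : ℝ) < R by linarith) 5])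
  have eΦ : (∑ w : V, if lp w.1 = 0 then (sz w.1 : ℝ) ^ ex θ - 1
      else -(lp w.1 : ℝ) ^ ex θ) = D ^ 2 * ((5 + cos θ) ^ (2 * k + 3) * (-1) ^ i) -
      (∑ j : Fin D, ((j + 1 : ℕ) : ℝ) ^ ex θ + D ^ 2 * ∑ a, if s a then 1 else 0) := by
    simp only [V, P, Fintype.sum_sigma, Fintype.sum_sum_type, sum_const, card_univ,
      Fintype.card_fin, nsmul_eq_mul, sz, lp, Sum.elim_inl, Sum.elim_inr, ← mul_assoc,
      ← Nat.cast_mul, ms]
    rw [mul_assoc, ← hθ, ← hs θ, mul_sum, mul_sum, mul_sum, sub_add_eq_sub_sub_swap,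
      ← sum_sub_distrib, sub_eq_neg_add (∑ _, _), ← sum_neg_distrib]
    simp only [Nat.cast_one, one_rpow, sub_self, if_true, mul_zero, zero_add, Nat.succ_ne_zero,
      if_false, one_mul]
    refine congrArg _ (sum_congr rfl fun a _ => ?_)
    by_cases u : s a
    · simp only [u, if_true, ex_pow]
      push_cast
      ring
    · simp only [u, if_false, ex_pow, (pow_pos (show 0 < 36 by norm_num) _).ne']
      push_cast
      ring
  rw [eΦ, cQ, mul_div_cancel₀ _ (by positivity), Nat.cast_sub (by omega)] at key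
  have D0 : (2 : ℝ) ≤ D := by exact_mod_cast D2
  have y1 : ∑ j : Fin D, ((j + 1 : ℕ) : ℝ) ^ ex θ ≤ D ^ 2 := by
    refine (sum_le_card_nsmul _ _ (D : ℝ) fun j _ => rpow_le ?_ (by linarith) (ex_mem θ).1
      (ex_mem θ).2).trans_eq (by simp [sq])
    have : ((j + 1 : ℕ) : ℝ) ≤ D := Nat.cast_le.2 j.2
    nlinarith
  have y0 : 0 ≤ ∑ j : Fin D, ((j + 1 : ℕ) : ℝ) ^ ex θ := sum_nonneg fun j _ => by positivity
  have y2 : (∑ a, if s a then (1 : ℝ) else 0) ≤ 16 ^ k := by
    refine (sum_le_card_nsmul _ _ 1 fun a _ => by split_ifs <;> simp).trans ?_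
    rw [nsmul_eq_mul, mul_one, card_univ]
    exact_mod_cast hI.trans (Nat.pow_le_pow_left (by norm_num) k)
  have y3 : 0 ≤ ∑ a, if s a then (1 : ℝ) else 0 := sum_nonneg fun a _ => by split_ifs <;> simp
  have y4 : (R : ℝ) ≤ D ^ 2 * (16 ^ k + 1) := by
    exact_mod_cast R1.trans (Nat.mul_le_mul_left _ (Nat.succ_le_succ
      (Nat.pow_le_pow_left (by norm_num) k)))
  have y5 : 64 * (16 : ℝ) ^ k ≤ (5 + cos θ) ^ (2 * k + 3) :=
    le_trans (by rw [pow_add, pow_mul]; norm_num [mul_comm]) (pow_le_pow_left₀ (a := 4)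
      (by norm_num) (by linarith [neg_one_le_cos θ]) _)
  have y6 : (1 : ℝ) ≤ 16 ^ k := one_le_pow₀ (by norm_num)
  have y7 : (1 : ℝ) ≤ D ^ 2 := by nlinarith
  set Y := ∑ j : Fin D, ((j + 1 : ℕ) : ℝ) ^ ex θ + D ^ 2 * ∑ a, if s a then (1 : ℝ) else 0
  have Y0 : 0 ≤ Y := by positivity
  have Y1 : Y + (R + 1) + 2 ≤ D ^ 2 * (5 + cos θ) ^ (2 * k + 3) := by
    have := mul_le_mul_of_nonneg_left y2 (sq_nonneg (D : ℝ))
    have := mul_le_mul_of_nonneg_left y5 (sq_nonneg (D : ℝ))
    have := mul_le_mul_of_nonneg_left y6 (sq_nonneg (D : ℝ))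
    simp only [Y]
    nlinarith
  have q0 : (n : ℝ) ≤ 2 * (n - R) := by linarith
  have := mul_le_mul_of_nonneg_left Y1 (show (0 : ℝ) ≤ 2 * (n - R) by linarith)
  have := mul_nonneg (show (0 : ℝ) ≤ 2 * (n - R) by linarith) Y0
  rw [abs_le] at key
  rcases neg_one_pow_eq_or ℝ i with c | c <;> rw [c] at key ⊢ <;> nlinarith [key.1, key.2]

theorem many (k n : ℕ) (hn : 36 ^ (36 * (k + 1)) ≤ n) : ∃ (V : Type) (_ : Fintype V)
    (G : SimpleGraph V), Fintype.card V = n ∧ G.Connected ∧ G ≠ ⊤ ∧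
      ∃ s : Finset ℝ, s.card = k ∧ ∀ t ∈ s, hG G t = 0 := by
  obtain ⟨V, _, G, h1, h2, h3, h4⟩ := graph k n hn
  refine ⟨V, _, G, h1, h2, h3, ?_⟩
  rcases Nat.eq_zero_or_pos k with rfl | k0
  · exact ⟨∅, rfl, by simp⟩
  have k1 : (0 : ℝ) < k := Nat.cast_pos.2 k0
  have c : Continuous fun θ => hG G (ex θ) := (h_cont h2).comp
    ((continuous_const.add continuous_cos).logb fun θ => by
      have := neg_one_le_cos θ
      simp only [Pi.add_apply]
      linarith)
  have sg : ∀ i : ℕ, 0 < (-1) ^ i * hG G (ex (i * (π / k))) := fun i => h4 _ i (by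
    rw [← cos_nat_mul_pi]
    congr 1
    field_simp)
  have st : ∀ i j : ℕ, i ≤ j → (i : ℝ) * (π / k) ≤ j * (π / k) := fun i j h => by gcongr
  have : ∀ i : ℕ, ∃ θ ∈ Set.Ioo ((i : ℝ) * (π / k)) ((i + 1 : ℕ) * (π / k)),
      (-1) ^ i * hG G (ex θ) = 0 := fun i =>
    intermediate_value_Ioo' (st i _ (Nat.le_succ i)) (continuous_const.mul c).continuousOn
      ⟨by
        have := sg (i + 1)
        rw [pow_succ] at this
        show (-1) ^ i * hG G (ex ((i + 1 : ℕ) * (π / k))) < 0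
        linarith, sg i⟩
  choose θ a b using this
  have mem : ∀ i < k, θ i ∈ Set.Icc 0 π := fun i h =>
    ⟨le_trans (by positivity) (a i).1.le, (a i).2.le.trans ((st _ k h).trans_eq (by field_simp))⟩
  have mono : StrictMono θ := strictMono_nat_of_lt_succ fun i => (a i).2.trans (a (i + 1)).1
  refine ⟨(range k).image fun i => ex (θ i), ?_, fun t ht => ?_⟩
  · rw [card_image_of_injOn fun i hi j hj e => mono.injective (injOn_cos (mem i (mem_range.1 hi))
      (mem j (mem_range.1 hj)) ?_), card_range]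
    have p : ∀ x, 0 < 5 + cos x := fun x => by linarith [neg_one_le_cos x]
    exact add_left_cancel (logb_injOn_pos (by norm_num) (p _) (p _) e)
  · obtain ⟨i, -, rfl⟩ := mem_image.1 ht
    exact (mul_eq_zero.1 (b i)).resolve_left (pow_ne_zero _ (by norm_num))

end Pool.Agent.MP_dd6dde_co
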