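import Mathlib.Analysis.Calculus.Deriv.MeanValue
import Mathlib.Analysis.SpecialFunctions.Pow.Deriv
import Pool.Agent.MP_dd6dde_co.Basic

/-! Upper bounds for the number of zeros of `h_G` in terms of the diameter. -/

namespace Pool.Agent.MP_dd6dde_co

open Finset Real
open scoped Classical

variable {V : Type} [Fintype V] {G : SimpleGraph V}

open Polynomial in
theorem expsum_eq {ι : Type} [Fintype ι] (c l : ι → ℝ) (s : Finset ℝ) (he : Even s.card)
    (hs : ∀ t ∈ s, (0 < t ∧ t ≤ 1) ∧ ∑ i, c i * exp (l i * t) = 0) :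
    ∃ ξ ∈ Set.Icc (0 : ℝ) 1, (∏ t ∈ s, t) * ∑ i, c i * l i ^ s.card * exp (l i * ξ) =
      (∑ i, c i) * s.card.factorial := by
  set p : ℝ[X] := ∏ t ∈ s, (X - C t) with hp
  have pm : p.Monic := monic_prod_of_monic _ _ fun t _ => monic_X_sub_C t
  have pd : p.natDegree = s.card := natDegree_finsetProd_X_sub_C_eq_card s id
  have p0 : p.eval 0 = ∏ t ∈ s, t := by
    rw [hp, eval_prod]
    simp only [eval_sub, eval_X, eval_C, zero_sub]
    rw [prod_congr rfl fun x _ => (neg_one_mul x).symm, prod_mul_distrib, prod_const,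
      he.neg_one_pow, one_mul]
  have p1 : p.eval 0 ≠ 0 := p0 ▸ (prod_pos fun t ht => (hs t ht).1.1).ne'
  have n0 : (0 : ℝ) ∉ s := fun h => lt_irrefl _ (hs 0 h).1.1
  obtain ⟨ξ, h1, h2⟩ := rolle s.card (fun j t => ∑ i, c i * l i ^ j * exp (l i * t) -
    (∑ i, c i) / p.eval 0 * (derivative^[j] p).eval t) (fun j t => by
      rw [Function.iterate_succ_apply']
      refine (HasDerivAt.fun_sum fun i _ => ?_).fun_sub
        (((derivative^[j] p).hasDerivAt t).const_mul _)
      refine ((((hasDerivAt_id t).const_mul (l i)).exp).const_mul (c i * l i ^ j)).congr_deriv ?_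
      simp only [id]
      ring) _ ((insert 0 s).orderEmbOfFin (card_insert_of_notMem n0)).strictMono fun i => by
    rcases mem_insert.1 ((insert 0 s).orderEmbOfFin_mem (card_insert_of_notMem n0) i) with e | e
    · rw [e]
      simp [div_mul_cancel₀ _ p1]
    · refine ⟨⟨(hs _ e).1.1.le, (hs _ e).1.2⟩, ?_⟩
      have z : ∀ t ∈ s, p.eval t = 0 := fun t h => by
        rw [hp, eval_prod]
        exact prod_eq_zero h (by simp)
      simp only [pow_zero, mul_one, Function.iterate_zero, id, (hs _ e).2, z _ e]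
      simp
  refine ⟨ξ, h1, ?_⟩
  have h3 : derivative^[s.card] p = C (s.card.factorial : ℝ) := by
    rw [eq_C_of_natDegree_le_zero ((natDegree_iterate_derivative p _).trans (by omega)),
      coeff_iterate_derivative, zero_add, Nat.descFactorial_self, ← pd, pm.coeff_natDegree]
    simp
  rw [h3, eval_C, sub_eq_zero] at h2
  rw [h2, ← p0]
  field_simp

theorem even_zeros (hc : G.Connected) (ht : G ≠ ⊤) {D : ℕ} (h2 : 2 ≤ D) (hD : ∀ x y, G.dist x y ≤ D)
    (s : Finset ℝ) (he : Even s.card) (hs : ∀ t ∈ s, hG G t = 0) : (s.card : ℝ) ≤ 5 * log D := by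
  have D2 : (2 : ℝ) ≤ D := by exact_mod_cast h2
  have hL : 0 < log D := log_pos (by linarith)
  rcases s.eq_empty_or_nonempty with rfl | ⟨β, hβ⟩
  · simp [hL.le]
  have mem := fun t h => zero_mem hc ht (hs t h)
  let c : V × V ⊕ V × V → ℝ := Sum.elim (fun e => if G.Adj e.1 e.2 then 1 else 0)
    fun e => if e.1 ≠ e.2 then -1 else 0
  let a : V × V ⊕ V × V → ℕ := Sum.elim (fun e => nu G e.1 e.2 * nu G e.2 e.1)
    fun e => G.dist e.1 e.2
  let y : V × V → ℝ := fun e => if G.Adj e.1 e.2 ∧ 2 ≤ nu G e.1 e.2 * nu G e.2 e.1 then 1 else 0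
  let z : V × V → ℝ := fun e => if e.1 ≠ e.2 ∧ ¬ G.Adj e.1 e.2 then 1 else 0
  have ap : ∀ {u v}, G.Adj u v → 0 < nu G u v * nu G v u := fun h =>
    Nat.mul_pos (nu_pos h) (nu_pos h.symm)
  have e : ∀ t, ∑ i, c i * exp ((log (a i) - log D) * t) = 2 * hG G t * exp (-log D * t) := by
    intro t
    rw [two_h, Fintype.sum_sum_type, ← sum_add_distrib, Fintype.sum_prod_type, sum_mul]
    refine sum_congr rfl fun u _ => ?_
    rw [sum_mul]
    refine sum_congr rfl fun v _ => ?_
    simp only [c, a, Sum.elim_inl, Sum.elim_inr, psi, ite_mul, one_mul, zero_mul, sub_mul]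
    rw [sub_eq_add_neg (ite _ _ _), neg_ite, neg_zero]
    refine congrArg₂ _ (if_ctx_congr Iff.rfl (fun h => ?_) fun _ => rfl)
      (if_ctx_congr Iff.rfl (fun h => ?_) fun _ => rfl)
    · rw [rpow_def_of_pos (by exact_mod_cast ap h), ← exp_add]
      ring_nf
    · rw [rpow_def_of_pos (by exact_mod_cast hc.pos_dist_of_ne h), ← exp_add]
      ring_nf
  obtain ⟨ξ, k1, k2⟩ := expsum_eq c (fun i => log (a i) - log D) s he
    fun t h => ⟨mem t h, by rw [e, hs t h]; simp⟩
  have z0 : ∑ i, c i = -∑ p, z p := by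
    rw [Fintype.sum_sum_type, ← sum_add_distrib, ← sum_neg_distrib]
    refine sum_congr rfl fun p _ => ?_
    by_cases u : G.Adj p.1 p.2
    · simp [c, z, u, u.ne]
    · by_cases v : p.1 = p.2 <;> simp [c, z, u, v]
  have lo : ∀ d : ℕ, 0 < d → d ≤ D →
      (log d - log D) ^ s.card * exp ((log d - log D) * ξ) ≤ log D ^ s.card := fun d a b => by
    have a1 := log_natCast_nonneg d
    have a2 := log_le_log (Nat.cast_pos.2 a) (Nat.cast_le.2 b : (d : ℝ) ≤ D)
    rw [← neg_sub, he.neg_pow]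
    exact (mul_le_of_le_one_right (pow_nonneg (by linarith) _) (exp_le_one_iff.2
      (mul_nonpos_of_nonpos_of_nonneg (by linarith) k1.1))).trans
      (pow_le_pow_left₀ (by linarith) (by linarith) _)
  have z1 : -(log D ^ s.card * ∑ p, (y p + z p)) ≤
      ∑ i, c i * (log (a i) - log D) ^ s.card * exp ((log (a i) - log D) * ξ) := by
    rw [Fintype.sum_sum_type, ← sum_add_distrib, mul_sum, ← sum_neg_distrib]
    refine sum_le_sum fun p _ => ?_
    by_cases u : G.Adj p.1 p.2
    · have d := SimpleGraph.dist_eq_one_iff_adj.2 u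
      simp only [c, a, y, z, u, u.ne, d, Sum.elim_inl, Sum.elim_inr, if_true, true_and, ne_eq,
        not_false_eq_true, not_true_eq_false, if_false, add_zero, one_mul, neg_mul]
      split_ifs with w
      · have := lo 1 one_pos (by omega)
        have := mul_nonneg (he.pow_nonneg (log ((nu G p.1 p.2 * nu G p.2 p.1 : ℕ) : ℝ) - log D))
          (exp_pos ((log ((nu G p.1 p.2 * nu G p.2 p.1 : ℕ) : ℝ) - log D) * ξ)).le
        linarith
      · rw [show nu G p.1 p.2 * nu G p.2 p.1 = 1 by have := ap u; omega]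
        simp
    · by_cases v : p.1 = p.2
      · simp [c, y, z, v]
      · simpa [c, a, y, z, u, v] using lo _ (hc.pos_dist_of_ne v) (hD _ _)
  have z2 : ∑ p, (2 / 3 * β * y p - D * z p) ≤ 0 := by
    have := two_h (G := G) β
    rw [hs β hβ, mul_zero, ← Fintype.sum_prod_type'] at this
    refine le_of_le_of_eq (sum_le_sum fun p _ => ?_) this.symm
    have b := mem β hβ
    by_cases u : G.Adj p.1 p.2
    · simp only [psi, y, z, u, u.ne, SimpleGraph.dist_eq_one_iff_adj.2 u, if_true, true_and, ne_eq,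
        not_false_eq_true, not_true_eq_false, if_false, Nat.cast_one, one_rpow, mul_zero, sub_zero]
      split_ifs with w
      · have := rpow_le_rpow (by norm_num) (Nat.cast_le.2 w : ((2 : ℕ) : ℝ) ≤ _) b.1.le
        rw [rpow_def_of_pos (by norm_num), Nat.cast_ofNat] at this
        nlinarith [add_one_le_exp (log 2 * β), log_two_gt_d9]
      · rw [show nu G p.1 p.2 * nu G p.2 p.1 = 1 by have := ap u; omega]
        simp
    · by_cases v : p.1 = p.2
      · simp [psi, y, z, v]
      · have := rpow_le_rpow_of_exponent_le (Nat.one_le_cast.2 (hc.pos_dist_of_ne v) :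
          (1 : ℝ) ≤ _) b.2
        rw [rpow_one] at this
        simpa [psi, y, z, u, v] using this.trans (Nat.cast_le.2 (hD p.1 p.2))
  rw [sum_sub_distrib, ← mul_sum, ← mul_sum] at z2
  rw [sum_add_distrib] at z1
  have y0 : 0 ≤ ∑ p, y p := sum_nonneg fun p _ => by simp only [y]; split_ifs <;> simp
  have z3 : 0 < ∑ p, z p := by
    have := e 0
    simp only [mul_zero, exp_zero, mul_one, z0] at this
    linarith [h_neg hc ht le_rfl]
  have p1 : 0 < ∏ t ∈ s, t := prod_pos fun t h => (mem t h).1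
  have p2 : ∏ t ∈ s, t ≤ β := by
    rw [← mul_prod_erase s (fun t => t) hβ]
    exact mul_le_of_le_one_right (mem β hβ).1.le (prod_le_one
      (fun t h => (mem t (mem_of_mem_erase h)).1.le) fun t h => (mem t (mem_of_mem_erase h)).2)
  have Lk : 0 < log D ^ s.card := by positivity
  have h3 : (s.card.factorial : ℝ) ≤ exp (2 * log D) * log D ^ s.card := by
    rw [two_mul, exp_add, exp_log (by linarith)]
    refine le_of_mul_le_mul_left ?_ z3
    have a1 := mul_le_mul_of_nonneg_left z1 p1.le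
    rw [k2, z0] at a1
    have a2 := mul_le_mul_of_nonneg_right p2
      (show 0 ≤ log D ^ s.card * (∑ p, y p + ∑ p, z p) by positivity)
    have a3 : β * (∑ p, y p + ∑ p, z p) ≤ (∑ p, z p) * (D * D) := by
      nlinarith [mul_le_mul_of_nonneg_right (mem β hβ).2 z3.le, mul_nonneg z3.le (sub_nonneg.2 D2),
        mul_nonneg (mul_nonneg z3.le (sub_nonneg.2 D2)) (sub_nonneg.2 D2)]
    nlinarith [mul_le_mul_of_nonneg_left a3 Lk.le]
  have h4 := pow_div_factorial_le_exp (x := exp 1 * log D) (by positivity) s.card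
  rw [div_le_iff₀ (by positivity), mul_pow, exp_one_pow] at h4
  have h5 : exp s.card ≤ exp (exp 1 * log D + 2 * log D) := by
    refine le_of_mul_le_mul_right (h4.trans ((mul_le_mul_of_nonneg_left h3 (by positivity)).trans_eq
      ?_)) Lk
    rw [exp_add]
    ring
  nlinarith [exp_le_exp.1 h5, exp_one_lt_d9]

theorem card_zeros_diam (hc : G.Connected) (ht : G ≠ ⊤) {D : ℕ} (h2 : 2 ≤ D)
    (hD : ∀ x y, G.dist x y ≤ D) (s : Finset ℝ) (hs : ∀ t ∈ s, hG G t = 0) :
    (s.card : ℝ) ≤ 7 * log D := by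
  have L := log_le_log (by norm_num) (Nat.cast_le.2 h2 : ((2 : ℕ) : ℝ) ≤ D)
  rw [Nat.cast_ofNat] at L
  obtain ⟨t, a, b⟩ := exists_subset_card_eq (s := s) (n := 2 * (s.card / 2)) (by omega)
  have := even_zeros hc ht h2 hD t (b ▸ even_two_mul _) fun x h => hs x (a h)
  have : (s.card : ℝ) ≤ t.card + 1 := by exact_mod_cast (by omega : s.card ≤ t.card + 1)
  linarith [log_two_gt_d9]

theorem four_mono {s : ℕ} (hs : 2 ≤ s) :
    StrictMonoOn (fun t : ℝ => ((s : ℝ) ^ t - 1) * exp (-log 4 * t)) (Set.Icc 0 1) := by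
  have s0 : (0 : ℝ) < s := Nat.cast_pos.2 (by omega)
  have d : ∀ t, HasDerivAt (fun t : ℝ => ((s : ℝ) ^ t - 1) * exp (-log 4 * t))
      ((log 4 - (log 4 - log s) * s ^ t) * exp (-log 4 * t)) t := fun t => by
    refine ((((hasStrictDerivAt_const_rpow s0 t).hasDerivAt.sub_const 1).fun_mul
      ((hasDerivAt_id t).const_mul (-log 4)).exp)).congr_deriv ?_
    simp only [id]
    ring
  refine strictMonoOn_of_deriv_pos (convex_Icc 0 1)
    (fun t _ => (d t).continuousAt.continuousWithinAt) fun t ht => ?_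
  rw [interior_Icc] at ht
  rw [(d t).deriv]
  refine mul_pos (sub_pos.2 ?_) (exp_pos _)
  have l4 : log 4 = 2 * log 2 := by rw [show (4 : ℝ) = 2 ^ 2 by norm_num, log_pow]; simp
  have l2 := log_two_gt_d9
  have t1 := rpow_lt_rpow_of_exponent_lt (Nat.one_lt_cast.2 hs : (1 : ℝ) < s) ht.2
  rw [rpow_one] at t1
  rcases le_or_gt 4 s with h | h
  · have := log_le_log (by norm_num) (Nat.cast_le.2 h : ((4 : ℕ) : ℝ) ≤ s)
    rw [Nat.cast_ofNat] at this
    nlinarith [rpow_pos_of_pos s0 t]
  · obtain rfl | rfl : s = 2 ∨ s = 3 := by omega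
    · push_cast at t1 ⊢
      nlinarith
    · have a := log_le_log (by norm_num) (show (4 : ℝ) ^ 2 ≤ 3 ^ 3 by norm_num)
      have b := log_lt_log (by norm_num) (show (3 : ℝ) < 4 by norm_num)
      rw [log_pow, log_pow] at a
      push_cast at t1 a ⊢
      nlinarith

theorem four_pos (hc : G.Connected) (ht : G ≠ ⊤) (hD : ∀ x y, G.dist x y ≤ 4) {α β : ℝ}
    (h : α < β) (ha : hG G α = 0) : 0 < hG G β := by
  rcases lt_or_ge 1 β with b | b
  · exact h_pos hc ht b
  have a := zero_mem hc ht ha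
  have m : ∀ {u v}, G.Adj u v → 2 ≤ nu G u v * nu G v u →
      psi G α u v * exp (-log 4 * α) < psi G β u v * exp (-log 4 * β) := fun {u v} k w => by
    simpa only [psi, k, k.ne, SimpleGraph.dist_eq_one_iff_adj.2 k, if_true, ne_eq,
      not_false_eq_true, Nat.cast_one, one_rpow] using four_mono w ⟨a.1.le, a.2⟩
      ⟨a.1.le.trans h.le, b⟩ h
  have o : ∀ {u v} (t : ℝ), G.Adj u v → ¬ 2 ≤ nu G u v * nu G v u → psi G t u v = 0 := by
    intro u v t k w
    rw [psi, show nu G u v * nu G v u = 1 by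
      have := Nat.mul_pos (nu_pos k) (nu_pos k.symm); omega]
    simp [k, k.ne, SimpleGraph.dist_eq_one_iff_adj.2 k]
  obtain ⟨u, v, k, w⟩ : ∃ u v, G.Adj u v ∧ 2 ≤ nu G u v * nu G v u := by
    obtain ⟨x, y, h1, h2⟩ := exists_far ht
    have h3 := hc.one_lt_dist_of_ne_of_not_adj h1 h2
    obtain ⟨e, he⟩ := card_pos.1 (lt_of_lt_of_le (by omega) (sep hc x y))
    exact ⟨_, _, (mem_filter.1 he).2.1.1, h3.trans_le (mem_filter.1 he).2.2⟩
  have := sum2_lt (f := fun x y => psi G α x y * exp (-log 4 * α))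
    (g := fun x y => psi G β x y * exp (-log 4 * β)) (fun x y => ?_) (m k w)
  · simp only [← sum_mul, ← two_h, ha, mul_zero, zero_mul] at this
    linarith [(mul_pos_iff_of_pos_right (exp_pos _)).1 this]
  by_cases p : G.Adj x y
  · by_cases q : 2 ≤ nu G x y * nu G y x
    · exact (m p q).le
    · simp [o _ p q]
  · by_cases q : x = y
    · simp [psi, q]
    · have d : (0 : ℝ) < G.dist x y := Nat.cast_pos.2 (hc.pos_dist_of_ne q)
      have l := log_le_log d (Nat.cast_le.2 (hD x y))
      rw [Nat.cast_ofNat] at l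
      simp only [psi, p, q, if_false, ne_eq, not_false_eq_true, if_true, zero_sub, neg_mul,
        neg_le_neg_iff, rpow_def_of_pos d, ← exp_add, exp_le_exp]
      nlinarith

end Pool.Agent.MP_dd6dde_co
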